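import Mathlib

namespace Pool.Agent.Results.MP_a52033_al.CharTwo

abbrev V := Fin 3 → ZMod 2

def mu (x y : V) : V :=
  ![x 0 * y 1 + x 2 * y 0 + x 2 * y 1,
    x 0 * y 0 + x 0 * y 1 + x 0 * y 2 + x 1 * y 0 + x 1 * y 2 + x 2 * y 0 + x 2 * y 1,
    x 0 * y 0 + x 0 * y 1 + x 2 * y 0 + x 2 * y 1 + x 2 * y 2]

def Bilin (F : Type) {A : Type} [Field F] [AddCommGroup A] [Module F A] (m : A → A → A) : Prop :=
  (∀ x y z, m (x + y) z = m x z + m y z) ∧ (∀ x y z, m x (y + z) = m x y + m x z) ∧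
    (∀ (c : F) x y, m (c • x) y = c • m x y) ∧ ∀ (c : F) x y, m x (c • y) = c • m x y

def RightAlt {A : Type} (m : A → A → A) : Prop := ∀ x y, m (m x y) y = m x (m y y)

def LeftAlt {A : Type} (m : A → A → A) : Prop := ∀ x y, m (m x x) y = m x (m x y)

def Malcev {A : Type} [AddCommGroup A] (b : A → A → A) : Prop := (∀ x, b x x = 0) ∧
  ∀ x y z, b (b x y) (b x z) = b (b (b x y) z) x + b (b (b y z) x) x + b (b (b z x) x) y

def Simple (F : Type) {A : Type} [Field F] [AddCommGroup A] [Module F A] (m : A → A → A) : Prop :=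
  (∃ x y, m x y ≠ 0) ∧
    ∀ I : Submodule F A, (∀ a, ∀ x ∈ I, m a x ∈ I ∧ m x a ∈ I) → I = ⊥ ∨ I = ⊤

theorem result : ∃ (F : Type) (_ : Field F) (A : Type) (_ : AddCommGroup A) (_ : Module F A)
    (m : A → A → A), Bilin F m ∧ Simple F m ∧ RightAlt m ∧ ¬ (LeftAlt m ∧ RightAlt m) ∧
      Malcev fun x y => m x y - m y x := by
  refine ⟨ZMod 2, @ZMod.instField 2 ⟨Nat.prime_two⟩, V, inferInstance, inferInstance, mu,
    ⟨by decide +kernel, by decide +kernel, ?_, ?_⟩, ⟨by decide +kernel, fun I hI => ?_⟩, ?_,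
    fun h => ?_, fun x => sub_self _, by decide +kernel⟩
  · change ∀ (c : ZMod 2) (x y : V), mu (c • x) y = c • mu x y
    decide +kernel
  · change ∀ (c : ZMod 2) (x y : V), mu x (c • y) = c • mu x y
    decide +kernel
  · have key : ∀ x : V, x ≠ 0 → ∀ v : V, ∃ a c d : V,
        v = mu (mu a x) c + mu x d ∨ v = mu a (mu x c) + mu d x := by decide +kernel
    by_cases h : I = ⊥
    · exact Or.inl h
    · obtain ⟨x, hx, h0⟩ := (Submodule.ne_bot_iff I).mp h
      refine Or.inr (eq_top_iff.mpr fun v _ => ?_)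
      obtain ⟨a, c, d, e | e⟩ := key x h0 v <;> rw [e]
      · exact I.add_mem (hI c _ (hI a x hx).1).2 (hI d x hx).2
      · exact I.add_mem (hI a _ (hI c x hx).2).1 (hI d x hx).1
  · unfold RightAlt
    decide +kernel
  · have : ¬ ∀ x y : V, mu (mu x x) y = mu x (mu x y) := by decide +kernel
    exact this h.1

end Pool.Agent.Results.MP_a52033_al.CharTwo
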